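import Pool.Agent.W66.LR

set_option autoImplicit false

/-!
# Integers with prime rough part in a fixed class modulo a power of two
-/

open Filter Topology Finset MeasureTheory
open scoped Real

namespace Pool.Agent.W943.FL

open Pool.Agent.W66
open Pool.Agent.W66L
open Pool.Agent.H305R2 (roughPart log_nat_tendsto)

/-- the deviation bound for sums over the reduced residues -/
theorem far_gen {b k q p : ℕ} (hb : 2 ≤ b) [NeZero (b ^ k)] (hp1 : 1 ≤ p) (hpk : p ≤ k)
    (hkq : k ≤ q) (g : ℕ → ℝ) (hg : ∀ c, |g c| ≤ 1) :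
    |∑ m ∈ UU b q, g (m % b ^ p) * (rpi q m - mq b q)| ≤
      dev (RN (b ^ k) (b ^ q - 1) q) := by
  set Q := b ^ k with hQ
  have hbk : 0 < b ^ k := by positivity
  have hk1 : 1 ≤ k := hp1.trans hpk
  have hq1 : 1 ≤ q := hk1.trans hkq
  set u : ℕ → ℝ := fun c => g (c % b ^ p) with hu
  have hu1 : ∀ c, |u c| ≤ 1 := fun c => hg _
  have hunit : ∀ m : ℕ, m.Coprime b → IsUnit (m : ZMod Q) := by
    intro m hm
    rw [ZMod.isUnit_iff_coprime]
    exact Nat.Coprime.pow_right k hm
  have hcop : ∀ (m : ℕ) (a : (ZMod Q)ˣ), (m : ZMod Q) = (a : ZMod Q) → m.Coprime b := by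
    intro m a h
    have h1 : IsUnit (m : ZMod Q) := h ▸ a.isUnit
    rw [ZMod.isUnit_iff_coprime] at h1
    exact Nat.Coprime.coprime_dvd_right (dvd_pow_self b (by omega)) h1
  -- rewrite the sum by classes
  have h1 : ∑ m ∈ UU b q, g (m % b ^ p) * (rpi q m - mq b q) =
      ∑ a : (ZMod Q)ˣ, u (a : ZMod Q).val * ∑ m ∈ UU b q,
        (if (m : ZMod Q) = (a : ZMod Q) then rpi q m - mq b q else 0) := by
    have h2 : ∀ m ∈ UU b q, g (m % b ^ p) * (rpi q m - mq b q) =
        ∑ a : (ZMod Q)ˣ, u (a : ZMod Q).val *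
          (if (m : ZMod Q) = (a : ZMod Q) then rpi q m - mq b q else 0) := by
      intro m hm
      obtain ⟨a, ha⟩ := hunit m (mem_UU.1 hm).2
      rw [Finset.sum_eq_single a]
      · rw [if_pos ha.symm, ha]
        have e1 : ((m : ZMod Q)).val = m % b ^ k := by rw [ZMod.val_natCast]
        rw [e1]
        simp only [hu]
        rw [Nat.mod_mod_of_dvd m (pow_dvd_pow b hpk)]
      · intro a' _ ha'
        rw [if_neg, mul_zero]
        intro h
        apply ha'
        apply Units.ext
        rw [← h, ha]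
      · intro h; exact absurd (Finset.mem_univ _) h
    rw [Finset.sum_congr rfl h2, Finset.sum_comm]
    refine Finset.sum_congr rfl fun a _ => ?_
    rw [Finset.mul_sum]
  rw [h1]
  have hφk := tot_pow_pos hb k
  have hφq := tot_pow_pos hb q
  -- the inner sums
  have h3 : ∀ a : (ZMod Q)ˣ, ∑ m ∈ UU b q,
      (if (m : ZMod Q) = (a : ZMod Q) then rpi q m - mq b q else 0) =
      RN Q (b ^ q - 1) q a - mn (RN Q (b ^ q - 1) q) := by
    intro a
    have h4 : ∑ m ∈ UU b q, (if (m : ZMod Q) = (a : ZMod Q) then rpi q m - mq b q else 0) =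
        ∑ m ∈ UU b q, (if (m : ZMod Q) = (a : ZMod Q) then rpi q m else 0) -
        mq b q * ∑ m ∈ UU b q, (if (m : ZMod Q) = (a : ZMod Q) then (1 : ℝ) else 0) := by
      rw [Finset.mul_sum, ← Finset.sum_sub_distrib]
      refine Finset.sum_congr rfl fun m _ => ?_
      split_ifs <;> ring
    have h5 : ∑ m ∈ UU b q, (if (m : ZMod Q) = (a : ZMod Q) then (1 : ℝ) else 0) =
        (b : ℝ) ^ (q - k) := by
      have e1 : ∑ m ∈ UU b q, (if (m : ZMod Q) = (a : ZMod Q) then (1 : ℝ) else 0) =
          (((range (b ^ q)).filter (fun m => m % b ^ k = (a : ZMod Q).val)).card : ℝ) := by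
        rw [Finset.card_eq_sum_ones, Finset.sum_filter]
        push_cast
        unfold UU
        rw [Finset.sum_filter]
        refine Finset.sum_congr rfl fun m _ => ?_
        have hiff : ((m : ZMod Q) = (a : ZMod Q)) ↔ m % b ^ k = (a : ZMod Q).val := by
          rw [← ZMod.val_natCast]
          constructor
          · intro h; rw [h]
          · intro h; exact ZMod.val_injective Q h
        by_cases h6 : (m : ZMod Q) = (a : ZMod Q)
        · rw [if_pos (hcop m a h6), if_pos h6, if_pos (hiff.1 h6)]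
        · rw [if_neg h6, if_neg fun h => h6 (hiff.2 h), ite_self]
      rw [e1, card_cls hb hkq (ZMod.val_lt _)]
      push_cast
      rfl
    have h6 : ∀ a : (ZMod Q)ˣ, ∑ m ∈ UU b q, (if (m : ZMod Q) = (a : ZMod Q) then rpi q m else 0) =
        RN Q (b ^ q - 1) q a := by
      intro a
      unfold RN UU
      rw [Finset.sum_filter, Finset.sum_filter]
      have e2 : ∑ m ∈ range (b ^ q), (if m.Coprime b then
          (if (m : ZMod Q) = (a : ZMod Q) then rpi q m else 0) else 0) =
          ∑ m ∈ Ioc 0 (b ^ q - 1), (if m.Coprime b then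
          (if (m : ZMod Q) = (a : ZMod Q) then rpi q m else 0) else 0) := by
        symm
        apply Finset.sum_subset
        · intro m hm
          rw [mem_Ioc] at hm
          rw [mem_range]
          omega
        · intro m hm hm'
          rw [mem_range] at hm
          rw [mem_Ioc] at hm'
          have : m = 0 := by omega
          rw [this, rpi_zero q, ite_self, ite_self]
      rw [e2]
      refine Finset.sum_congr rfl fun m _ => ?_
      by_cases h7 : (m : ZMod Q) = (a : ZMod Q)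
      · rw [if_pos (hcop m a h7), if_pos h7, if_pos h7]
        rfl
      · rw [if_neg h7, if_neg h7, ite_self, ite_self]
    have h7 : mn (RN Q (b ^ q - 1) q) = mq b q * (b : ℝ) ^ (q - k) := by
      have e3 : ∑ a : (ZMod Q)ˣ, RN Q (b ^ q - 1) q a = AA b q := by
        rw [AA_eq_range]
        have e4 : ∑ a : (ZMod Q)ˣ, RN Q (b ^ q - 1) q a =
            ∑ a : (ZMod Q)ˣ, ∑ m ∈ UU b q, (if (m : ZMod Q) = (a : ZMod Q) then rpi q m else 0) :=
          Finset.sum_congr rfl fun a _ => (h6 a).symm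
        rw [e4, Finset.sum_comm]
        refine Finset.sum_congr rfl fun m hm => ?_
        obtain ⟨a, ha⟩ := hunit m (mem_UU.1 hm).2
        rw [Finset.sum_eq_single a]
        · rw [if_pos ha.symm]
        · intro a' _ ha'
          rw [if_neg]
          intro h
          apply ha'
          apply Units.ext
          rw [← h, ha]
        · intro h; exact absurd (Finset.mem_univ _) h
      unfold mn
      rw [e3]
      unfold mq
      have e5 : (((b ^ q).totient : ℕ) : ℝ) = ((Q.totient : ℕ) : ℝ) * (b : ℝ) ^ (q - k) := by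
        rw [hQ, tot_pow hb hq1, tot_pow hb hk1]
        have : (b : ℝ) ^ q = (b : ℝ) ^ k * (b : ℝ) ^ (q - k) := by
          rw [← pow_add]; congr 1; omega
        rw [this]
        ring
      have hb0 : (0 : ℝ) < b := by exact_mod_cast (by omega : 0 < b)
      rw [e5]
      have hQφ : (0 : ℝ) < (Q.totient : ℝ) := hφk
      field_simp
    rw [h4, h5, h6, h7]
  calc |∑ a : (ZMod Q)ˣ, u (a : ZMod Q).val * ∑ m ∈ UU b q,
        (if (m : ZMod Q) = (a : ZMod Q) then rpi q m - mq b q else 0)| ≤
      ∑ a : (ZMod Q)ˣ, |u (a : ZMod Q).val * ∑ m ∈ UU b q,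
        (if (m : ZMod Q) = (a : ZMod Q) then rpi q m - mq b q else 0)| :=
        Finset.abs_sum_le_sum_abs _ _
    _ ≤ ∑ a : (ZMod Q)ˣ, |RN Q (b ^ q - 1) q a - mn (RN Q (b ^ q - 1) q)| := by
        refine Finset.sum_le_sum fun a _ => ?_
        rw [h3 a, abs_mul]
        calc |u (a : ZMod Q).val| * |RN Q (b ^ q - 1) q a - mn (RN Q (b ^ q - 1) q)| ≤
            1 * |RN Q (b ^ q - 1) q a - mn (RN Q (b ^ q - 1) q)| :=
              mul_le_mul_of_nonneg_right (hu1 _) (abs_nonneg _)
          _ = _ := one_mul _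
    _ = _ := rfl


/-- the integers below `2 ^ q` in the class `c` modulo `2 ^ k` with prime rough part -/
noncomputable def BC (k c q : ℕ) : ℝ := ∑ m ∈ (range (2 ^ q)).filter (fun m => m % 2 ^ k = c), rpi q m

lemma BC_sub {k c K q : ℕ} [NeZero (2 ^ K)] (hk : 1 ≤ k) (hc : c < 2 ^ k) (hc2 : c.Coprime 2)
    (hkK : k ≤ K) (hKq : K ≤ q) :
    |BC k c q - mq 2 q * 2 ^ (q - k)| ≤ dev (RN (2 ^ K) (2 ^ q - 1) q) := by
  classical
  set g : ℕ → ℝ := fun x => if x = c then 1 else 0 with hg
  have h := far_gen (b := 2) (k := K) (q := q) (p := k) le_rfl hk hkK hKq g (by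
    intro x
    simp only [hg]
    split_ifs <;> norm_num)
  have e : ∑ m ∈ UU 2 q, g (m % 2 ^ k) * (rpi q m - mq 2 q) = BC k c q - mq 2 q * 2 ^ (q - k) := by
    have e1 : ∑ m ∈ UU 2 q, g (m % 2 ^ k) * (rpi q m - mq 2 q) =
        ∑ m ∈ (range (2 ^ q)).filter (fun m => m % 2 ^ k = c), (rpi q m - mq 2 q) := by
      unfold UU
      rw [Finset.sum_filter, Finset.sum_filter]
      refine Finset.sum_congr rfl fun m _ => ?_
      simp only [hg]
      by_cases h1 : m % 2 ^ k = c
      · have h2 : m.Coprime 2 := by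
          rw [← mod_coprime (b := 2) (p := k) hk, h1]
          exact hc2
        rw [if_pos h2, if_pos h1, if_pos h1, one_mul]
      · rw [if_neg h1, if_neg h1, zero_mul, ite_self]
    rw [e1, Finset.sum_sub_distrib, Finset.sum_const, card_cls le_rfl (hkK.trans hKq) hc, nsmul_eq_mul]
    unfold BC
    push_cast
    ring
  rwa [e] at h

theorem BC_tendsto {k c : ℕ} (hk : 1 ≤ k) (hc : c < 2 ^ k) (hc2 : c.Coprime 2) :
    Tendsto (fun q : ℕ => BC k c q / 2 ^ q * (q / Real.log q)) atTop
      (𝓝 (Real.exp Real.eulerMascheroniConstant / Real.log 2 / 2 ^ k)) := by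
  obtain ⟨κ, K, hκ, hK, hL⟩ := rough_L1 (b := 2) le_rfl
  have h1 := (mq_tendsto (b := 2) le_rfl).div_const (2 ^ k : ℝ)
  have hq : Tendsto (fun q : ℕ => (q : ℝ)) atTop atTop := tendsto_natCast_atTop_atTop
  have hkl : ∀ᶠ q : ℕ in atTop, k ≤ ⌊κ * q / Real.log q⌋₊ := by
    have h2 : Tendsto (fun x : ℝ => Real.log x / x) atTop (𝓝 0) := by
      have := Real.isLittleO_log_id_atTop.tendsto_div_nhds_zero
      simpa using this
    have h3 := h2.comp hq
    have hk0 : (0 : ℝ) < k := by exact_mod_cast hk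
    filter_upwards [h3.eventually_lt_const (show (0 : ℝ) < κ / k by positivity),
      log_nat_tendsto.eventually_ge_atTop 1, eventually_ge_atTop 1] with q h4 h5 h6
    have hq0 : (0 : ℝ) < q := by exact_mod_cast h6
    simp only [Function.comp] at h4
    rw [div_lt_div_iff₀ hq0 hk0] at h4
    refine Nat.le_floor ?_
    rw [le_div_iff₀ (by linarith)]
    linarith
  have hdiff : Tendsto (fun q : ℕ => BC k c q / 2 ^ q * (q / Real.log q) -
      mq 2 q * (q / Real.log q) / 2 ^ k) atTop (𝓝 0) := by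
    refine squeeze_zero_norm' (a := fun q : ℕ => K / (q : ℝ)) ?_ (tendsto_const_div_atTop_nhds_zero_nat K)
    filter_upwards [hL, hkl, log_nat_tendsto.eventually_ge_atTop 1, eventually_ge_atTop 1,
      eventually_ge_atTop k] with q h4 h5 h6 h7 h8
    have hq0 : (0 : ℝ) < q := by exact_mod_cast h7
    haveI : NeZero (2 ^ ⌊κ * (q : ℝ) / Real.log q⌋₊) := ⟨by positivity⟩
    obtain ⟨h9, h10⟩ := h4 ⌊κ * (q : ℝ) / Real.log q⌋₊ rfl
    have h11 := (BC_sub (q := q) hk hc hc2 h5 h9).trans h10
    have e : BC k c q / 2 ^ q * (q / Real.log q) - mq 2 q * (q / Real.log q) / 2 ^ k =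
        (BC k c q - mq 2 q * 2 ^ (q - k)) * ((q / Real.log q) / 2 ^ q) := by
      have e2 : (2 : ℝ) ^ q = 2 ^ (q - k) * 2 ^ k := by rw [← pow_add]; congr 1; omega
      rw [e2]
      field_simp
    have hlog : 0 < Real.log (q : ℝ) := by linarith
    rw [Real.norm_eq_abs, e, abs_mul, abs_of_nonneg (show (0 : ℝ) ≤ (q / Real.log q) / 2 ^ q by positivity)]
    calc |BC k c q - mq 2 q * 2 ^ (q - k)| * ((q / Real.log q) / 2 ^ q) ≤
        K * (((2 : ℕ) : ℝ) ^ q * (Real.log q / (q : ℝ) ^ 2)) * ((q / Real.log q) / 2 ^ q) :=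
          mul_le_mul_of_nonneg_right h11 (by positivity)
      _ = K / q := by
          push_cast
          field_simp
  have h := hdiff.add h1
  rw [zero_add] at h
  have h12 : Tendsto (fun q : ℕ => BC k c q / 2 ^ q * (q / Real.log q)) atTop
      (𝓝 (Real.exp Real.eulerMascheroniConstant / Real.log ((2 : ℕ) : ℝ) / 2 ^ k)) := by
    refine h.congr fun q => ?_
    ring
  simpa using h12

lemma roughPart_succ {q a : ℕ} (h : ¬ (q + 1) ∣ a) : roughPart (q + 1) a = roughPart q a := by
  unfold roughPart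
  congr 1
  refine List.filter_congr fun r hr => ?_
  have h1 : r ∣ a := Nat.dvd_of_mem_primeFactorsList hr
  have h2 : r ≠ q + 1 := by
    rintro rfl
    exact h h1
  rw [decide_eq_decide]
  omega

/-- the integers `2 ^ q + a`, `a < 2 ^ q`, in the class -/
noncomputable def PC (k c q : ℕ) : ℝ :=
  ∑ a ∈ (range (2 ^ q)).filter (fun a => a % 2 ^ k = c), rpi (q + 1) (2 ^ q + a)

lemma PC_eq {k c q : ℕ} (hkq : k ≤ q) :
    BC k c (q + 1) = ∑ a ∈ (range (2 ^ q)).filter (fun a => a % 2 ^ k = c), rpi (q + 1) a + PC k c q := by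
  unfold BC PC
  rw [Finset.sum_filter, Finset.sum_filter, Finset.sum_filter, pow_succ, mul_two,
    Finset.sum_range_add]
  congr 1
  refine Finset.sum_congr rfl fun a _ => ?_
  have h1 : (2 ^ q + a) % 2 ^ k = a % 2 ^ k := by
    have h2 : (2 : ℕ) ^ q = 2 ^ (q - k) * 2 ^ k := by rw [← pow_add]; congr 1; omega
    rw [h2, Nat.mul_add_mod']
  rw [h1]

lemma card_dvd (n d : ℕ) (hd : 0 < d) : (((range n).filter (fun a => d ∣ a)).card : ℝ) ≤ n / d + 1 := by
  have h1 : ((range n).filter (fun a => d ∣ a)) ⊆ (range (n / d + 1)).image (fun t => d * t) := by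
    intro a ha
    rw [mem_filter, mem_range] at ha
    rw [mem_image]
    refine ⟨a / d, ?_, Nat.mul_div_cancel' ha.2⟩
    rw [mem_range]
    have := Nat.div_le_div_right (c := d) ha.1.le
    omega
  have h2 := (Finset.card_le_card h1).trans Finset.card_image_le
  rw [card_range] at h2
  have h3 : (((range n).filter (fun a => d ∣ a)).card : ℝ) ≤ ((n / d + 1 : ℕ) : ℝ) := by exact_mod_cast h2
  refine h3.trans ?_
  push_cast
  have : ((n / d : ℕ) : ℝ) ≤ n / d := Nat.cast_div_le
  linarith

lemma PC_sub {k c q : ℕ} (hkq : k ≤ q) :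
    |PC k c q - (BC k c (q + 1) - BC k c q)| ≤ (2 : ℝ) ^ q / (q + 1) + 1 := by
  classical
  have h1 := PC_eq (c := c) hkq
  have e : PC k c q - (BC k c (q + 1) - BC k c q) =
      ∑ a ∈ (range (2 ^ q)).filter (fun a => a % 2 ^ k = c), (rpi q a - rpi (q + 1) a) := by
    rw [h1, Finset.sum_sub_distrib]
    unfold BC
    ring
  rw [e]
  have h2 : ∀ a, |rpi q a - rpi (q + 1) a| ≤ if (q + 1) ∣ a then 1 else 0 := by
    intro a
    by_cases h3 : (q + 1) ∣ a
    · rw [if_pos h3, abs_le]
      have := rpi_nonneg q a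
      have := rpi_nonneg (q + 1) a
      have := rpi_le_one q a
      have := rpi_le_one (q + 1) a
      constructor <;> linarith
    · rw [if_neg h3]
      unfold rpi
      rw [roughPart_succ h3, sub_self, abs_zero]
  calc |∑ a ∈ (range (2 ^ q)).filter (fun a => a % 2 ^ k = c), (rpi q a - rpi (q + 1) a)| ≤
      ∑ a ∈ (range (2 ^ q)).filter (fun a => a % 2 ^ k = c), |rpi q a - rpi (q + 1) a| :=
        Finset.abs_sum_le_sum_abs _ _
    _ ≤ ∑ a ∈ range (2 ^ q), |rpi q a - rpi (q + 1) a| :=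
        Finset.sum_le_sum_of_subset_of_nonneg (Finset.filter_subset _ _) fun _ _ _ => abs_nonneg _
    _ ≤ ∑ a ∈ range (2 ^ q), (if (q + 1) ∣ a then (1 : ℝ) else 0) := Finset.sum_le_sum fun a _ => h2 a
    _ = (((range (2 ^ q)).filter (fun a => (q + 1) ∣ a)).card : ℝ) := by
        rw [Finset.card_eq_sum_ones, Finset.sum_filter]
        push_cast
        rfl
    _ ≤ ((2 ^ q : ℕ) : ℝ) / ((q + 1 : ℕ) : ℝ) + 1 := card_dvd _ _ (Nat.succ_pos q)
    _ = _ := by push_cast; rfl

theorem PC_tendsto {k c : ℕ} (hk : 1 ≤ k) (hc : c < 2 ^ k) (hc2 : c.Coprime 2) :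
    Tendsto (fun q : ℕ => PC k c q / 2 ^ q * (q / Real.log q)) atTop
      (𝓝 (Real.exp Real.eulerMascheroniConstant / Real.log 2 / 2 ^ k)) := by
  set L := Real.exp Real.eulerMascheroniConstant / Real.log 2 / 2 ^ k with hL
  have h1 := BC_tendsto hk hc hc2
  rw [← hL] at h1
  have h2 := (h1.comp (tendsto_add_atTop_nat 1))
  have hq : Tendsto (fun q : ℕ => (q : ℝ)) atTop atTop := tendsto_natCast_atTop_atTop
  -- the ratio of the weights
  have hr1 : Tendsto (fun q : ℕ => (q : ℝ) / ((q : ℝ) + 1)) atTop (𝓝 1) := by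
    simpa using tendsto_natCast_div_add_atTop (1 : ℝ)
  have hr2 : Tendsto (fun q : ℕ => Real.log ((q : ℝ) + 1) / Real.log q) atTop (𝓝 1) := by
    have h3 : Tendsto (fun q : ℕ => 1 + (Real.log (q : ℝ))⁻¹) atTop (𝓝 1) := by
      have := (tendsto_inv_atTop_zero.comp log_nat_tendsto).const_add (1 : ℝ)
      simpa using this
    refine tendsto_of_tendsto_of_tendsto_of_le_of_le' (tendsto_const_nhds (x := (1 : ℝ))) h3 ?_ ?_
    · filter_upwards [log_nat_tendsto.eventually_gt_atTop 0, eventually_ge_atTop 1] with q h4 h5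
      have hq0 : (0 : ℝ) < q := by exact_mod_cast h5
      rw [le_div_iff₀ h4, one_mul]
      exact Real.log_le_log hq0 (by linarith)
    · filter_upwards [log_nat_tendsto.eventually_gt_atTop 0, eventually_ge_atTop 1] with q h4 h5
      have hq0 : (1 : ℝ) ≤ q := by exact_mod_cast h5
      rw [div_le_iff₀ h4, add_mul, one_mul, inv_mul_cancel₀ h4.ne']
      have h6 : Real.log ((q : ℝ) + 1) ≤ Real.log (q * Real.exp 1) := by
        apply Real.log_le_log (by linarith)
        have := Real.exp_one_gt_d9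
        nlinarith
      rw [Real.log_mul (by linarith) (Real.exp_pos 1).ne', Real.log_exp] at h6
      exact h6
  have h3 := ((h2.mul (hr1.mul hr2)).mul_const 2).sub h1
  have e : L * (1 * 1) * 2 - L = L := by ring
  rw [e] at h3
  have hdiff : Tendsto (fun q : ℕ => (PC k c q - (BC k c (q + 1) - BC k c q)) / 2 ^ q *
      (q / Real.log q)) atTop (𝓝 0) := by
    have h4 : Tendsto (fun q : ℕ => 2 * (Real.log (q : ℝ))⁻¹) atTop (𝓝 0) := by
      have := (tendsto_inv_atTop_zero.comp log_nat_tendsto).const_mul (2 : ℝ)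
      simpa using this
    refine squeeze_zero_norm' ?_ h4
    filter_upwards [log_nat_tendsto.eventually_gt_atTop 0, eventually_ge_atTop 1,
      eventually_ge_atTop k] with q h5 h6 h7
    have hq0 : (0 : ℝ) < q := by exact_mod_cast h6
    have h8 := PC_sub (c := c) h7
    have h9 : (1 : ℝ) ≤ 2 ^ q / (q + 1) := by
      rw [le_div_iff₀ (by linarith), one_mul]
      exact_mod_cast Nat.lt_two_pow_self (n := q)
    rw [Real.norm_eq_abs, abs_mul, abs_div, abs_of_pos (show (0 : ℝ) < 2 ^ q by positivity),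
      abs_of_pos (show 0 < (q : ℝ) / Real.log q by positivity)]
    calc |PC k c q - (BC k c (q + 1) - BC k c q)| / 2 ^ q * (q / Real.log q) ≤
        (2 * ((2 : ℝ) ^ q / (q + 1))) / 2 ^ q * (q / Real.log q) := by
          gcongr
          linarith
      _ = 2 * (q / (q + 1)) * (Real.log q)⁻¹ := by field_simp
      _ ≤ 2 * 1 * (Real.log q)⁻¹ := by
          gcongr
          rw [div_le_one (by linarith)]
          linarith
      _ = _ := by ring
  have h5 := hdiff.add h3
  rw [zero_add] at h5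
  refine h5.congr' ?_
  filter_upwards [log_nat_tendsto.eventually_gt_atTop 0, eventually_ge_atTop 1] with q h6 h7
  have hq0 : (0 : ℝ) < q := by exact_mod_cast h7
  have hl1 : 0 < Real.log ((q : ℝ) + 1) := Real.log_pos (by linarith)
  simp only [Function.comp]
  push_cast
  rw [pow_succ]
  field_simp
  ring

end Pool.Agent.W943.FL
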