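import Pool.Agent.W943.FL.F1
import Pool.Agent.W943.FL.F2
import Pool.Agent.W66.LT
import Pool.Agent.W56.FC

set_option autoImplicit false

/-!
# The law on a space of random last binary digits
-/

open Filter Topology Finset MeasureTheory
open scoped Real

namespace Pool.Agent.W943.FL

open Pool.Agent.W66
open Pool.Agent.W66L
open Pool.Agent.H305R2 (roughPart log_nat_tendsto)

lemma log_div_anti {a b : ℕ} (ha : 3 ≤ a) (hab : a ≤ b) :
    Real.log (b : ℝ) / b ≤ Real.log (a : ℝ) / a := by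
  apply Real.log_div_self_antitoneOn
  · show Real.exp 1 ≤ (a : ℝ)
    have : (3 : ℝ) ≤ a := by exact_mod_cast ha
    linarith [Real.exp_one_lt_d9]
  · show Real.exp 1 ≤ (b : ℝ)
    have : (3 : ℝ) ≤ b := by exact_mod_cast ha.trans hab
    linarith [Real.exp_one_lt_d9]
  · exact_mod_cast hab

lemma sum_shift_le (q : ℕ) (hq : 1 ≤ q) (f : ℕ → ℝ) (hf : ∀ x, 0 ≤ f x) :
    ∑ a ∈ UU 2 q, f (2 ^ q + a) ≤ ∑ m ∈ UU 2 (q + 1), f m := by
  have hinj : Set.InjOn (fun a => 2 ^ q + a) (UU 2 q : Set ℕ) := by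
    intro a _ b _ h
    simpa using h
  rw [← Finset.sum_image (f := f) hinj]
  refine Finset.sum_le_sum_of_subset_of_nonneg ?_ fun i _ _ => hf i
  intro x hx
  rw [mem_image] at hx
  obtain ⟨a, ha, rfl⟩ := hx
  rw [mem_UU] at ha ⊢
  refine ⟨by rw [pow_succ]; omega, ?_⟩
  have h2 : (2 : ℕ) ^ q = 2 ^ (q - 1) * 2 := by rw [← pow_succ]; congr 1; omega
  rw [h2, add_comm, Nat.coprime_add_mul_right_left]
  exact ha.2

/-- the pair count -/
noncomputable def S2 (p q : ℕ) : ℝ :=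
  ∑ a ∈ UU 2 q, rpi (p + 1) (2 ^ p + a % 2 ^ p) * rpi (q + 1) (2 ^ q + a)

theorem S2_le : ∃ K : ℝ, 0 < K ∧ ∀ᶠ p : ℕ in atTop, ∀ q : ℕ, 2 * p ≤ q →
    S2 p q ≤ K * 2 ^ q * ((Real.log ((p + 1 : ℕ) : ℝ) / ((p + 1 : ℕ) : ℝ)) *
      (Real.log ((q + 1 : ℕ) : ℝ) / ((q + 1 : ℕ) : ℝ))) := by
  obtain ⟨K, hK, hmid⟩ := mid_gen (b := 2) le_rfl
  obtain ⟨K1, hK1, hmq⟩ := mq_le (b := 2) le_rfl
  obtain ⟨P, hP⟩ := eventually_atTop.1 (hmid.and hmq)
  refine ⟨2 * K * (K1 + 1), by positivity, ?_⟩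
  filter_upwards [eventually_ge_atTop P, eventually_ge_atTop 3] with p hp1 hp3 q hpq
  have hpp : 1 ≤ p := by omega
  have hm := (hP (q + 1) (by omega)).1 p (fun x => rpi (p + 1) (2 ^ p + x)) hpp (by omega)
    (fun x => rpi_nonneg _ _) (fun x => rpi_le_one _ _)
  have hmq1 := (hP (p + 1) (by omega)).2
  have h1 : S2 p q ≤ ∑ m ∈ UU 2 (q + 1), rpi (p + 1) (2 ^ p + m % 2 ^ p) * rpi (q + 1) m := by
    have h2 := sum_shift_le q (by omega) (fun m => rpi (p + 1) (2 ^ p + m % 2 ^ p) * rpi (q + 1) m)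
      (fun x => mul_nonneg (rpi_nonneg _ _) (rpi_nonneg _ _))
    refine le_trans (le_of_eq ?_) h2
    unfold S2
    refine Finset.sum_congr rfl fun a _ => ?_
    have h3 : (2 ^ q + a) % 2 ^ p = a % 2 ^ p := by
      have h4 : (2 : ℕ) ^ q = 2 ^ (q - p) * 2 ^ p := by rw [← pow_add]; congr 1; omega
      rw [h4, Nat.mul_add_mod']
    simp only [h3]
  have h5 : (∑ c ∈ UU 2 p, rpi (p + 1) (2 ^ p + c)) / (2 : ℝ) ^ p ≤
      K1 * (Real.log ((p + 1 : ℕ) : ℝ) / ((p + 1 : ℕ) : ℝ)) := by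
    have h6 := sum_shift_le p hpp (fun m => rpi (p + 1) m) (fun x => rpi_nonneg _ _)
    have h7 : ∑ m ∈ UU 2 (p + 1), rpi (p + 1) m = mq 2 (p + 1) * (((2 ^ (p + 1)).totient : ℕ) : ℝ) :=
      sum_UU_rpi le_rfl
    have h8 : (((2 ^ (p + 1)).totient : ℕ) : ℝ) = (2 : ℝ) ^ p := by
      rw [Nat.totient_prime_pow Nat.prime_two (by omega)]
      push_cast
      simp
    rw [h7, h8] at h6
    rw [div_le_iff₀ (by positivity)]
    exact h6.trans (mul_le_mul_of_nonneg_right hmq1 (by positivity))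
  have h9 := log_div_anti (a := p + 1) (b := q + 1) (by omega) (by omega)
  set lp := Real.log ((p + 1 : ℕ) : ℝ) / ((p + 1 : ℕ) : ℝ) with hlp
  set lq := Real.log ((q + 1 : ℕ) : ℝ) / ((q + 1 : ℕ) : ℝ) with hlq
  have hlq0 : 0 ≤ lq := div_nonneg (Real.log_natCast_nonneg _) (Nat.cast_nonneg _)
  have hlp0 : 0 ≤ lp := div_nonneg (Real.log_natCast_nonneg _) (Nat.cast_nonneg _)
  refine h1.trans (hm.trans ?_)
  have h10 : (((2 : ℕ) : ℝ)) = 2 := by norm_num
  rw [h10]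
  calc K * (2 : ℝ) ^ (q + 1) * (lq * ((∑ c ∈ UU 2 p, rpi (p + 1) (2 ^ p + c)) / (2 : ℝ) ^ p + lq)) ≤
      K * (2 : ℝ) ^ (q + 1) * (lq * (K1 * lp + lp)) := by gcongr
    _ = _ := by rw [pow_succ]; ring

section

variable {Ω : Type*} [MeasurableSpace Ω] {μ : Measure Ω} [IsFiniteMeasure μ] {s : ℕ → Ω → ℕ}

lemma full_mod (hs : Full 2 μ s) {k n : ℕ} (hkn : k ≤ n) (x : Ω) : s n x % 2 ^ k = s k x := by
  induction n, hkn using Nat.le_induction with
  | base => exact Nat.mod_eq_of_lt (hs.lt le_rfl k x)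
  | succ n hn ih =>
    rw [← ih, ← hs.compat n x, Nat.mod_mod_of_dvd _ (pow_dvd_pow 2 hn)]

lemma real_pred (hs : Full 2 μ s) (n : ℕ) (T : Finset ℕ) (hT : ∀ a ∈ T, a < 2 ^ n) :
    μ.real {x | s n x ∈ T} = T.card * (μ.real Set.univ / 2 ^ n) := by
  have e : {x | s n x ∈ T} = ⋃ a ∈ T, {x | s n x = a} := by
    ext x
    simp
  rw [e, measureReal_biUnion_finset]
  · have h1 : ∀ a ∈ T, μ.real {x | s n x = a} = μ.real Set.univ / (2 : ℝ) ^ n := by
      intro a ha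
      have := hs.unif n a (hT a ha)
      push_cast at this
      exact this
    rw [Finset.sum_congr rfl h1, Finset.sum_const, nsmul_eq_mul]
  · intro a _ a' _ haa
    rw [Function.onFun, Set.disjoint_left]
    intro x hx hx'
    exact haa (hx.symm.trans hx')
  · intro a _
    exact (hs.meas n) (measurableSet_singleton a)

/-- the index `m` gives a prime, in the class `c` modulo `2 ^ k` -/
def EF (s : ℕ → Ω → ℕ) (k c m : ℕ) : Set Ω :=
  {x | s k x = c ∧ (roughPart (2 ^ m + 1) (2 ^ (2 ^ m) + s (2 ^ m) x)).Prime}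

lemma measurableSet_EF (hs : Full 2 μ s) (k c m : ℕ) : MeasurableSet (EF s k c m) := by
  have h1 : MeasurableSet {x | s k x = c} := (hs.meas k) (measurableSet_singleton c)
  have h2 : MeasurableSet {x | (roughPart (2 ^ m + 1) (2 ^ (2 ^ m) + s (2 ^ m) x)).Prime} :=
    (hs.meas (2 ^ m)) (MeasurableSet.of_discrete
      (s := {n : ℕ | (roughPart (2 ^ m + 1) (2 ^ (2 ^ m) + n)).Prime}))
  exact h1.inter h2

lemma EF_real (hs : Full 2 μ s) {k c m : ℕ} (hkm : k ≤ 2 ^ m) :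
    μ.real (EF s k c m) = PC k c (2 ^ m) / 2 ^ (2 ^ m) * μ.real Set.univ := by
  classical
  set n := 2 ^ m with hn
  set T := ((range (2 ^ n)).filter (fun a => a % 2 ^ k = c)).filter
    (fun a => (roughPart (n + 1) (2 ^ n + a)).Prime) with hT
  have e : EF s k c m = {x | s n x ∈ T} := by
    ext x
    simp only [EF, hT, mem_filter, mem_range, Set.mem_setOf_eq]
    rw [full_mod hs hkm x, ← hn]
    have := hs.lt le_rfl n x
    tauto
  rw [e, real_pred hs n T (fun a ha => by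
    rw [hT, mem_filter, mem_filter, mem_range] at ha
    exact ha.1.1)]
  have h1 : (T.card : ℝ) = PC k c n := by
    unfold PC rpi
    rw [hT, Finset.card_eq_sum_ones, Finset.sum_filter]
    push_cast
    rfl
  rw [h1]
  ring

lemma EF_pair (hs : Full 2 μ s) {k c m n : ℕ} (hk : 1 ≤ k) (hc2 : c.Coprime 2) (hkm : k ≤ 2 ^ m)
    (hmn : m < n) :
    μ.real (EF s k c m ∩ EF s k c n) ≤ S2 (2 ^ m) (2 ^ n) / 2 ^ (2 ^ n) * μ.real Set.univ := by
  classical
  have hle : 2 ^ m ≤ 2 ^ n := Nat.pow_le_pow_right (by norm_num) hmn.le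
  set p := 2 ^ m with hp
  set q := 2 ^ n with hq
  set T := (UU 2 q).filter (fun a => (roughPart (p + 1) (2 ^ p + a % 2 ^ p)).Prime ∧
    (roughPart (q + 1) (2 ^ q + a)).Prime) with hT
  have e : EF s k c m ∩ EF s k c n ⊆ {x | s q x ∈ T} := by
    rintro x ⟨⟨h1, h2⟩, ⟨h3, h4⟩⟩
    rw [← hp] at h2
    rw [← hq] at h4
    simp only [hT, mem_filter, Set.mem_setOf_eq, mem_UU]
    rw [full_mod hs hle x]
    refine ⟨⟨hs.lt le_rfl q x, ?_⟩, h2, h4⟩
    rw [← mod_coprime (b := 2) (p := k) hk, full_mod hs (hkm.trans hle) x, h1]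
    exact hc2
  have h5 := measureReal_mono (μ := μ) e (measure_ne_top _ _)
  refine h5.trans ?_
  rw [real_pred hs q T (fun a ha => by
    rw [hT, mem_filter, mem_UU] at ha
    exact ha.1.1)]
  have h1 : (T.card : ℝ) = S2 p q := by
    unfold S2 rpi
    rw [hT, Finset.card_eq_sum_ones, Finset.sum_filter]
    push_cast
    refine Finset.sum_congr rfl fun a _ => ?_
    by_cases h6 : (roughPart (p + 1) (2 ^ p + a % 2 ^ p)).Prime <;>
      by_cases h7 : (roughPart (q + 1) (2 ^ q + a)).Prime <;> simp [h6, h7]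
  rw [h1]
  exact le_of_eq (by ring)

lemma weight_le {m : ℕ} (hm : 1 ≤ m) :
    Real.log ((2 ^ m + 1 : ℕ) : ℝ) / ((2 ^ m + 1 : ℕ) : ℝ) ≤ 2 * ((m : ℝ) / 2 ^ m) := by
  have hm1 : (1 : ℝ) ≤ m := by exact_mod_cast hm
  have hp : (0 : ℝ) < 2 ^ m := by positivity
  have h1 : Real.log ((2 ^ m + 1 : ℕ) : ℝ) ≤ (m + 1) * Real.log 2 := by
    have h2 : Real.log ((2 : ℝ) ^ (m + 1)) = ((m + 1 : ℕ) : ℝ) * Real.log 2 := Real.log_pow _ _
    have h3 : ((m + 1 : ℕ) : ℝ) = (m : ℝ) + 1 := by push_cast; rfl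
    rw [← h3, ← h2]
    apply Real.log_le_log (by positivity)
    push_cast
    have : (1 : ℝ) ≤ 2 ^ m := one_le_pow₀ (by norm_num)
    rw [pow_succ]
    linarith
  have hl2 : Real.log 2 < 1 := by have := Real.log_two_lt_d9; linarith
  have hl2' : 0 < Real.log 2 := Real.log_pos (by norm_num)
  have h4 : (m + 1) * Real.log 2 ≤ 2 * m := by nlinarith
  calc Real.log ((2 ^ m + 1 : ℕ) : ℝ) / ((2 ^ m + 1 : ℕ) : ℝ) ≤ (2 * m) / ((2 ^ m + 1 : ℕ) : ℝ) := by
        gcongr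
        exact h1.trans h4
    _ ≤ (2 * m) / 2 ^ m := by
        apply div_le_div_of_nonneg_left (by positivity) hp
        push_cast
        linarith
    _ = _ := by ring

theorem law_full (hs : Full 2 μ s) {k c : ℕ} (hk : 1 ≤ k) (hc : c < 2 ^ k) (hc2 : c.Coprime 2) :
    Tendsto (fun M : ℕ => μ.real (⋃ m ∈ Set.Ici M, EF s k c m) * (2 ^ M / M)) atTop
      (𝓝 (2 * (Real.exp Real.eulerMascheroniConstant * μ.real {x | s k x = c}))) := by
  obtain ⟨K, hK, hS⟩ := S2_le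
  have hball : μ.real {x | s k x = c} = μ.real Set.univ / 2 ^ k := by
    have := hs.unif k c hc
    push_cast at this
    exact this
  have hu : 0 ≤ μ.real Set.univ := measureReal_nonneg
  have htend : Tendsto (fun m : ℕ => 2 ^ m) atTop (atTop : Filter ℕ) :=
    tendsto_pow_atTop_atTop_of_one_lt (one_lt_two (α := ℕ))
  refine Pool.Agent.W56.union_law (E := EF s k c) (fun m => measurableSet_EF hs k c m)
    (K := 4 * K * μ.real Set.univ) (by positivity) (by positivity) ?_ ?_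
  · -- the mean
    have h1 := ((PC_tendsto hk hc hc2).comp htend).mul_const (Real.log 2 * μ.real Set.univ)
    have e : Real.exp Real.eulerMascheroniConstant / Real.log 2 / 2 ^ k *
        (Real.log 2 * μ.real Set.univ) = Real.exp Real.eulerMascheroniConstant * μ.real {x | s k x = c} := by
      rw [hball]
      have hl2' : 0 < Real.log 2 := Real.log_pos (by norm_num)
      field_simp
    rw [e] at h1
    refine h1.congr' ?_
    filter_upwards [htend.eventually_ge_atTop k, eventually_ge_atTop 1] with m h2 h3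
    have hm0 : (0 : ℝ) < m := by exact_mod_cast h3
    have hl2' : 0 < Real.log 2 := Real.log_pos (by norm_num)
    rw [EF_real hs h2]
    simp only [Function.comp]
    push_cast
    rw [Real.log_pow]
    field_simp
  · -- pairs
    filter_upwards [htend.eventually hS, htend.eventually_ge_atTop k, eventually_ge_atTop 1] with
      m h1 h2 h3 n hmn
    have h4 : 2 * 2 ^ m ≤ 2 ^ n := by
      rw [← pow_succ']
      exact Nat.pow_le_pow_right (by norm_num) (by omega)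
    have h5 := h1 (2 ^ n) h4
    have h6 := EF_pair hs hk hc2 h2 hmn
    have h7 := weight_le h3
    have h8 := weight_le (m := n) (by omega)
    have h9 : 0 ≤ Real.log ((2 ^ m + 1 : ℕ) : ℝ) / ((2 ^ m + 1 : ℕ) : ℝ) :=
      div_nonneg (Real.log_natCast_nonneg _) (Nat.cast_nonneg _)
    have h10 : 0 ≤ Real.log ((2 ^ n + 1 : ℕ) : ℝ) / ((2 ^ n + 1 : ℕ) : ℝ) :=
      div_nonneg (Real.log_natCast_nonneg _) (Nat.cast_nonneg _)
    refine h6.trans ?_
    have h11 : S2 (2 ^ m) (2 ^ n) / 2 ^ (2 ^ n) ≤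
        K * ((2 * ((m : ℝ) / 2 ^ m)) * (2 * ((n : ℝ) / 2 ^ n))) := by
      rw [div_le_iff₀ (by positivity)]
      refine h5.trans ?_
      calc K * 2 ^ (2 ^ n) * ((Real.log ((2 ^ m + 1 : ℕ) : ℝ) / ((2 ^ m + 1 : ℕ) : ℝ)) *
            (Real.log ((2 ^ n + 1 : ℕ) : ℝ) / ((2 ^ n + 1 : ℕ) : ℝ))) ≤
          K * 2 ^ (2 ^ n) * ((2 * ((m : ℝ) / 2 ^ m)) * (2 * ((n : ℝ) / 2 ^ n))) := by
            gcongr
        _ = _ := by ring
    calc S2 (2 ^ m) (2 ^ n) / 2 ^ (2 ^ n) * μ.real Set.univ ≤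
        K * ((2 * ((m : ℝ) / 2 ^ m)) * (2 * ((n : ℝ) / 2 ^ n))) * μ.real Set.univ :=
          mul_le_mul_of_nonneg_right h11 hu
      _ = _ := by ring

end

end Pool.Agent.W943.FL
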